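import Pool.Agent.H95.RQ.Targets1

/-!
# (BRF) Brauer's induction theorem
-/

set_option autoImplicit false

namespace Pool.Agent.H33.RQ

open Pool.Agent.H95.RQ Pool.Agent.H28.RC

/-- integral combinations of monomial characters -/
def IsMo (G : Type) [Group G] (f : G → ℂ) : Prop :=
  ∃ (N : ℕ) (s : Fin N → (Σ H : Subgroup G, (H →* ℂˣ)) × ℤ),
    ∀ g, f g = ∑ i, ((s i).2 : ℂ) * indc (s i).1.1 (s i).1.2 g

theorem isMo_of_mem {G : Type} [Group G] {f : G → ℂ} (hf : f ∈ Mo G) : IsMo G f := by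
  unfold Mo at hf
  induction hf using AddSubgroup.closure_induction with
  | mem x hx =>
    obtain ⟨H, lam, rfl⟩ := hx
    exact ⟨1, fun _ => (⟨H, lam⟩, 1), fun g => by simp⟩
  | zero => exact ⟨0, fun i => i.elim0, fun g => by simp⟩
  | add x y _ _ hx hy =>
    obtain ⟨N, s, hs⟩ := hx
    obtain ⟨M, t, ht⟩ := hy
    refine ⟨N + M, Fin.append s t, fun g => ?_⟩
    rw [Pi.add_apply, hs, ht, Fin.sum_univ_add]
    congr 1
    · refine Finset.sum_congr rfl fun i _ => ?_
      rw [Fin.append_left]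
    · refine Finset.sum_congr rfl fun i _ => ?_
      rw [Fin.append_right]
  | neg x _ hx =>
    obtain ⟨N, s, hs⟩ := hx
    refine ⟨N, fun i => ((s i).1, -(s i).2), fun g => ?_⟩
    rw [Pi.neg_apply, hs, ← Finset.sum_neg_distrib]
    refine Finset.sum_congr rfl fun i _ => ?_
    push_cast
    ring

theorem pf_BRF (h_TRA : T_TRA) (h_MON : T_MON) (h_SOL : T_SOL) (h_PRJ : T_PRJ) :
    Pool.Agent.H28.RC.T_BRA := by
  intro G _ _ V _ _ _ ρ
  obtain ⟨N, H, n, hHE, hsum⟩ := h_SOL G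
  have hmem : (fun g => LinearMap.trace ℂ V (ρ g)) ∈ Mo G := by
    have h1 : (fun g => LinearMap.trace ℂ V (ρ g)) =
        ∑ i, n i • indf (H i) (fun h => LinearMap.trace ℂ V (ρ (h : G))) := by
      funext g
      rw [Finset.sum_apply]
      have h2 : LinearMap.trace ℂ V (ρ g) =
          LinearMap.trace ℂ V (ρ g) * ((∑ i, n i * pcz (H i) g : ℤ) : ℂ) := by
        rw [hsum g, Int.cast_one, mul_one]
      rw [h2, Int.cast_sum, Finset.mul_sum]
      refine Finset.sum_congr rfl fun i _ => ?_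
      rw [Pi.smul_apply, ← h_PRJ G (H i) V ρ g, zsmul_eq_mul, Int.cast_mul]
      ring
    rw [h1]
    refine AddSubgroup.sum_mem _ fun i _ => AddSubgroup.zsmul_mem _ ?_ _
    obtain ⟨p, hp, hE⟩ := hHE i
    exact h_TRA G (H i) _ (h_MON p (H i) hp hE V (ρ.comp (H i).subtype))
  obtain ⟨M, s, hs⟩ := isMo_of_mem hmem
  exact ⟨M, fun i => (s i).1.1, fun i => (s i).1.2, fun i => (s i).2, hs⟩

end Pool.Agent.H33.RQ
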