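import Pool.Agent.H32.RQ.Targets

/-!
Pairs of quadratic forms (MP_63b6b1_nt): the Fourier transforms of the Fejér weight and of the
triangular function.
-/

set_option autoImplicit false

open Finset Pool.Agent.H32.RQ

namespace Pool.Agent.H33.RQ

/-- number of pairs with a given difference -/
theorem card_diff (J : ℕ) (v : ℤ) :
    ((range J ×ˢ range J).filter fun p : ℕ × ℕ => (p.1 : ℤ) - p.2 = v).card = J - v.natAbs := by
  obtain ⟨k, rfl | rfl⟩ := Int.eq_nat_or_neg v
  · rw [Int.natAbs_natCast, ← card_range (J - k)]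
    refine card_bij' (fun p _ => p.2) (fun i _ => (i + k, i)) ?_ ?_ ?_ ?_
    · rintro ⟨i, j⟩ h
      simp only [mem_filter, mem_product, mem_range] at h ⊢
      omega
    · intro i h
      simp only [mem_filter, mem_product, mem_range] at h ⊢
      push_cast
      omega
    · rintro ⟨i, j⟩ h
      simp only [mem_filter, mem_product, mem_range] at h ⊢
      rw [Prod.mk.injEq]
      omega
    · intro i _
      rfl
  · rw [Int.natAbs_neg, Int.natAbs_natCast, ← card_range (J - k)]
    refine card_bij' (fun p _ => p.1) (fun i _ => (i, i + k)) ?_ ?_ ?_ ?_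
    · rintro ⟨i, j⟩ h
      simp only [mem_filter, mem_product, mem_range] at h ⊢
      omega
    · intro i h
      simp only [mem_filter, mem_product, mem_range] at h ⊢
      push_cast
      omega
    · rintro ⟨i, j⟩ h
      simp only [mem_filter, mem_product, mem_range] at h ⊢
      rw [Prod.mk.injEq]
      omega
    · intro i _
      rfl

theorem J_tri (Q J : ℕ) [NeZero Q] (hJ : 1 ≤ J) (a : ZMod Q) :
    (J : ℝ) * tri Q J a = ((J - a.valMinAbs.natAbs : ℕ) : ℝ) := by
  have hJ0 : (0 : ℝ) < J := by exact_mod_cast hJ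
  have h1 : |((a.valMinAbs : ℤ) : ℝ)| = (a.valMinAbs.natAbs : ℝ) := by
    rw [← Int.cast_abs, Int.abs_eq_natAbs]
    simp
  unfold tri
  rw [h1, mul_max_of_nonneg _ _ hJ0.le, mul_zero, mul_sub, mul_one, mul_div_cancel₀ _ hJ0.ne']
  rcases le_total a.valMinAbs.natAbs J with h | h
  · rw [Nat.cast_sub h]
    exact max_eq_right (sub_nonneg.2 (by exact_mod_cast h))
  · rw [Nat.sub_eq_zero_of_le h, Nat.cast_zero]
    exact max_eq_left (sub_nonpos.2 (by exact_mod_cast h))

/-- the square of the exponential sum -/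
theorem sq_sum (Q J : ℕ) [NeZero Q] (hJ : 1 ≤ J) (hQ : 2 * J ≤ Q) (v : ZMod Q) :
    ((‖∑ j ∈ range J, ZMod.stdAddChar ((j : ZMod Q) * v)‖ ^ 2 : ℝ) : ℂ) =
      ∑ a : ZMod Q, ((J * tri Q J a : ℝ) : ℂ) * ZMod.stdAddChar (a * v) := by
  rw [Complex.ofReal_pow, ← Complex.conj_mul', mul_comm, map_sum, sum_mul_sum, ← sum_product']
  rw [← sum_fiberwise (range J ×ˢ range J) (fun p : ℕ × ℕ => ((p.1 : ZMod Q) - p.2))]
  refine sum_congr rfl fun a _ => ?_
  have h1 : ∀ p ∈ (range J ×ˢ range J).filter fun p : ℕ × ℕ => ((p.1 : ZMod Q) - p.2) = a,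
      (ZMod.stdAddChar ((p.1 : ZMod Q) * v) : ℂ) *
        (starRingEnd ℂ) (ZMod.stdAddChar ((p.2 : ZMod Q) * v)) = ZMod.stdAddChar (a * v) := by
    intro p hp
    rw [← AddChar.map_neg_eq_conj, ← AddChar.map_add_eq_mul, ← (mem_filter.1 hp).2, sub_mul,
      sub_eq_add_neg]
  rw [sum_congr rfl h1, sum_const, nsmul_eq_mul, J_tri Q J hJ a, ← card_diff]
  have h2 : (range J ×ˢ range J).filter (fun p : ℕ × ℕ => ((p.1 : ZMod Q) - p.2) = a) =
      (range J ×ˢ range J).filter fun p : ℕ × ℕ => (p.1 : ℤ) - p.2 = a.valMinAbs := by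
    refine filter_congr fun p hp => ?_
    have h3 := mem_range.1 (mem_product.1 hp).1
    have h4 := mem_range.1 (mem_product.1 hp).2
    rw [eq_comm (b := a.valMinAbs), ZMod.valMinAbs_spec]
    constructor
    · intro h
      refine ⟨?_, ?_⟩
      · rw [← h]
        push_cast
        rfl
      · constructor <;> omega
    · rintro ⟨h, -⟩
      rw [h]
      push_cast
      rfl
  rw [h2]
  norm_cast

theorem tri_neg (Q J : ℕ) [NeZero Q] (a : ZMod Q) : tri Q J (-a) = tri Q J a := by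
  have h : |(((-a).valMinAbs : ℤ) : ℝ)| = |((a.valMinAbs : ℤ) : ℝ)| := by
    rw [← Int.cast_abs, ← Int.cast_abs, Int.abs_eq_natAbs, Int.abs_eq_natAbs,
      ZMod.natAbs_valMinAbs_neg]
  unfold tri
  rw [h]

theorem pf_FJT : T_FJT := by
  intro Q J _ hJ hQ
  have hJ0 : (J : ℂ) ≠ 0 := by
    have : J ≠ 0 := by omega
    exact_mod_cast this
  refine ⟨fun a => ?_, fun v => ?_⟩
  · have h1 : ∀ u : ZMod Q, (fj Q J u : ℂ) * ZMod.stdAddChar (a * u) =
        (J : ℂ)⁻¹ * ∑ b : ZMod Q, (tri Q J b : ℂ) * ZMod.stdAddChar (u * (b + a)) := by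
      intro u
      have h2 : (fj Q J u : ℂ) = ((J : ℂ) ^ 2)⁻¹ *
          ∑ b : ZMod Q, ((J * tri Q J b : ℝ) : ℂ) * ZMod.stdAddChar (b * u) := by
        rw [← sq_sum Q J hJ hQ u]
        unfold fj
        push_cast
        rw [div_eq_inv_mul]
      rw [h2, mul_assoc, sum_mul, mul_sum, mul_sum]
      refine sum_congr rfl fun b _ => ?_
      rw [mul_add, AddChar.map_add_eq_mul, mul_comm b u, mul_comm a u]
      push_cast
      field_simp
    rw [sum_congr rfl fun u _ => h1 u, ← mul_sum, sum_comm]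
    have h3 : ∀ b : ZMod Q, ∑ u : ZMod Q, (tri Q J b : ℂ) * ZMod.stdAddChar (u * (b + a)) =
        if b = -a then (tri Q J a : ℂ) * Q else 0 := by
      intro b
      rw [← mul_sum, AddChar.sum_mulShift _ (ZMod.isPrimitive_stdAddChar Q)]
      by_cases h : b = -a
      · rw [if_pos h, if_pos (by rw [h]; ring), ZMod.card, h, tri_neg]
      · rw [if_neg h, if_neg (fun h' => h (eq_neg_of_add_eq_zero_left h')), Nat.cast_zero,
          mul_zero]
    rw [sum_congr rfl fun b _ => h3 b, sum_ite_eq' univ (-a), if_pos (mem_univ _)]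
    push_cast
    field_simp
  · have h1 : ((J * fj Q J v : ℝ) : ℂ) = (J : ℂ)⁻¹ *
        ∑ a : ZMod Q, ((J * tri Q J a : ℝ) : ℂ) * ZMod.stdAddChar (a * v) := by
      rw [← sq_sum Q J hJ hQ v]
      unfold fj
      push_cast
      field_simp
    rw [h1, mul_sum]
    refine sum_congr rfl fun a _ => ?_
    push_cast
    field_simp

end Pool.Agent.H33.RQ
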