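import Pool.Agent.H95.RQ.Targets1

/-!
# (RED) Maschke
-/

set_option autoImplicit false

namespace Pool.Agent.H33.RQ

open Pool.Agent.H95.RQ

/-- the restriction of a representation to an invariant subspace -/
noncomputable def resRep {G V : Type} [Group G] [AddCommGroup V] [Module ℂ V]
    (ρ : Representation ℂ G V) (W : Submodule ℂ V) (hW : ∀ g, ∀ x ∈ W, ρ g x ∈ W) :
    Representation ℂ G W where
  toFun g := (ρ g).restrict (hW g)
  map_one' := by
    ext x
    simp
  map_mul' g h := by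
    ext x
    simp

theorem pf_RED : T_RED := by
  intro G _ _ V _ _ _ ρ W hW hb ht
  have := Fintype.ofFinite G
  obtain ⟨p0, hp0⟩ := W.subtype.exists_leftInverse_of_injective (by simp)
  have hp0' : ∀ w (hw : w ∈ W), p0 w = ⟨w, hw⟩ := fun w hw => by
    have := LinearMap.congr_fun hp0 ⟨w, hw⟩
    simpa using this
  obtain ⟨P0, hP0⟩ : ∃ P0 : Module.End ℂ V, ∀ v, P0 v = (p0 v : V) :=
    ⟨W.subtype ∘ₗ p0, fun _ => rfl⟩
  have hP0W : ∀ v, P0 v ∈ W := fun v => by rw [hP0]; exact (p0 v).2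
  have hP0f : ∀ w ∈ W, P0 w = w := fun w hw => by rw [hP0, hp0' w hw]
  obtain ⟨P, hP⟩ : ∃ P : Module.End ℂ V, P = (Fintype.card G : ℂ)⁻¹ • ∑ g, ρ g * P0 * ρ g⁻¹ :=
    ⟨_, rfl⟩
  have hPv : ∀ v, P v = (Fintype.card G : ℂ)⁻¹ • ∑ g, ρ g (P0 (ρ g⁻¹ v)) := by
    intro v
    rw [hP, LinearMap.smul_apply, LinearMap.sum_apply]
    rfl
  have hc : (Fintype.card G : ℂ) ≠ 0 := Nat.cast_ne_zero.2 Fintype.card_ne_zero
  have hPW : ∀ v, P v ∈ W := fun v => by
    rw [hPv]
    exact W.smul_mem _ (W.sum_mem fun g _ => hW g _ (hP0W _))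
  have hPf : ∀ w ∈ W, P w = w := fun w hw => by
    rw [hPv]
    have h1 : ∀ g ∈ (Finset.univ : Finset G), ρ g (P0 (ρ g⁻¹ w)) = w := fun g _ => by
      rw [hP0f _ (hW _ _ hw), ← Module.End.mul_apply, ← map_mul, mul_inv_cancel, map_one]
      rfl
    rw [Finset.sum_congr rfl h1, Finset.sum_const, Finset.card_univ, ← Nat.cast_smul_eq_nsmul ℂ,
      smul_smul, inv_mul_cancel₀ hc, one_smul]
  have hPc : ∀ h v, P (ρ h v) = ρ h (P v) := fun h v => by
    rw [hPv, hPv, map_smul, map_sum]
    congr 1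
    rw [← Equiv.sum_comp (Equiv.mulLeft h) (fun g => ρ g (P0 (ρ g⁻¹ (ρ h v))))]
    refine Finset.sum_congr rfl fun g _ => ?_
    rw [Equiv.coe_mulLeft, ← Module.End.mul_apply (ρ (h * g)⁻¹), ← map_mul, mul_inv_rev,
      inv_mul_cancel_right, map_mul, Module.End.mul_apply]
  have hW2 : ∀ g, ∀ x ∈ LinearMap.ker P, ρ g x ∈ LinearMap.ker P := fun g x hx => by
    rw [LinearMap.mem_ker] at hx ⊢
    rw [hPc, hx, map_zero]
  have hcompl : IsCompl W (LinearMap.ker P) := by
    constructor
    · rw [Submodule.disjoint_def]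
      intro x hx hx2
      rw [LinearMap.mem_ker, hPf x hx] at hx2
      exact hx2
    · rw [codisjoint_iff, eq_top_iff]
      intro v _
      rw [Submodule.mem_sup]
      refine ⟨P v, hPW v, v - P v, ?_, by abel⟩
      rw [LinearMap.mem_ker, map_sub, hPf _ (hPW v), sub_self]
  refine ⟨W, LinearMap.ker P, resRep ρ W hW, resRep ρ _ hW2, ?_, ?_, fun g => ?_⟩
  · exact Submodule.finrank_lt ht
  · refine Submodule.finrank_lt fun h => hb ?_
    rw [h] at hcompl
    exact eq_bot_iff.2 (by simpa using hcompl.disjoint.le_bot)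
  · have hint : DirectSum.IsInternal (fun b : Bool => if b then W else LinearMap.ker P) := by
      rw [DirectSum.isInternal_submodule_iff_isCompl _ (i := true) (j := false) (by simp)
        (by ext b; cases b <;> simp)]
      simpa using hcompl
    have hmap : ∀ b : Bool, Set.MapsTo (ρ g) (if b then W else LinearMap.ker P : Submodule ℂ V)
        (if b then W else LinearMap.ker P : Submodule ℂ V) := by
      intro b
      cases b
      · exact hW2 g
      · exact hW g
    have h1 := LinearMap.trace_eq_sum_trace_restrict hint hmap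
    rw [h1, Fintype.sum_bool]
    rfl

end Pool.Agent.H33.RQ
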